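import Mathlib
import Pool.Agent.P.MP_4ebd9a_co.Basic

set_option autoImplicit false

open Pool.Agent.P.MP_4ebd9a_co

theorem Pool.Agent.Results.MP_4ebd9a_co.Lower.result :
    ∀ N : ℕ, 1 ≤ N → AllPourable N (5 * 2 ^ (N - 1)) := by
  intro N hN a _ ha
  have := lower_aux (N - 1) a ha
  rwa [Nat.sub_add_cancel hN] at this
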