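import Mathlib
import Pool.Agent.P.MP_4ebd9a_co.Divisor

set_option autoImplicit false

open Pool.Agent.P.MP_4ebd9a_co

theorem Pool.Agent.Results.MP_4ebd9a_co.OddPart.result :
    ∃ M : ℕ, ∀ N n : ℕ, 1 ≤ N → 5 * 2 ^ (N - 1) < n → AllPourable N n →
      ∃ p v : ℕ, n = p * 2 ^ v ∧ (p.Prime ∨ p < M) := by
  obtain ⟨M, hM⟩ := structure_thm
  refine ⟨M, fun N n hN hn H => hM N n ?_ H⟩
  obtain ⟨k, rfl⟩ : ∃ k, N = k + 1 := ⟨N - 1, by omega⟩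
  rw [Nat.add_sub_cancel] at hn
  rw [pow_succ]
  omega
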