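import Mathlib
import Pool.Agent.P.MP_4ebd9a_co.Up56

set_option autoImplicit false

open Pool.Agent.P.MP_4ebd9a_co

theorem Pool.Agent.Results.MP_4ebd9a_co.UpperSharp.result :
    ∀ N n : ℕ, 1 ≤ N → AllPourable N n → 5 * n < 28 * 2 ^ (N - 1) := by
  intro N n hN h
  by_contra hn
  exact upper56 hN (not_lt.mp hn) h
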